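import Pool.Agent.H61.HB.Stmts4

set_option autoImplicit false

namespace HB

private theorem fsb_tri (M M' : ℝ) (hM : 0 ≤ M) (hM' : 0 ≤ M') (k l : Z2)
    (h1 : sq l ≤ M ^ 2) (h2 : sq (k - l) ≤ M' ^ 2) : sq k ≤ (M + M') ^ 2 := by
  unfold sq at *
  simp only [Prod.fst_sub, Prod.snd_sub, Int.cast_sub] at h2
  set a : ℝ := (l.1 : ℝ)
  set b : ℝ := (l.2 : ℝ)
  set c : ℝ := (k.1 : ℝ) - a with hc
  set d : ℝ := (k.2 : ℝ) - b with hd
  have e1 : (k.1 : ℝ) = a + c := by rw [hc]; ring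
  have e2 : (k.2 : ℝ) = b + d := by rw [hd]; ring
  rw [e1, e2]
  have h3 : (a * c + b * d) ^ 2 ≤ (M * M') ^ 2 := by
    have h4 : (a * c + b * d) ^ 2 ≤ (a ^ 2 + b ^ 2) * (c ^ 2 + d ^ 2) := by
      nlinarith [sq_nonneg (a * d - b * c)]
    have h5 : (a ^ 2 + b ^ 2) * (c ^ 2 + d ^ 2) ≤ M ^ 2 * M' ^ 2 :=
      mul_le_mul h1 h2 (by positivity) (by positivity)
    calc _ ≤ _ := h4
      _ ≤ _ := h5
      _ = _ := by ring
  have h6 : a * c + b * d ≤ M * M' := (abs_le_of_sq_le_sq' h3 (by positivity)).2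
  nlinarith

private theorem fsb_fin (M : ℝ) : {k : Z2 | sq k ≤ M ^ 2}.Finite := by
  have hf : (Set.Icc (-⌈|M|⌉) ⌈|M|⌉ ×ˢ Set.Icc (-⌈|M|⌉) ⌈|M|⌉ : Set Z2).Finite :=
    (Set.finite_Icc _ _).prod (Set.finite_Icc _ _)
  refine hf.subset ?_
  have key : ∀ (n : ℤ) (x : ℝ), (n : ℝ) ^ 2 + x ^ 2 ≤ M ^ 2 → n ∈ Set.Icc (-⌈|M|⌉) ⌈|M|⌉ := by
    intro n x h
    have h1 : (n : ℝ) ^ 2 ≤ |M| ^ 2 := by
      rw [sq_abs]; nlinarith [sq_nonneg x]
    have h2 := abs_le_of_sq_le_sq' h1 (abs_nonneg M)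
    have h3 : |M| ≤ (⌈|M|⌉ : ℝ) := Int.le_ceil _
    constructor
    · have : (-(⌈|M|⌉ : ℤ) : ℝ) ≤ (n : ℝ) := by linarith [h2.1]
      exact_mod_cast this
    · have : (n : ℝ) ≤ (⌈|M|⌉ : ℝ) := by linarith [h2.2]
      exact_mod_cast this
  intro k hk
  have hk' : (k.1 : ℝ) ^ 2 + (k.2 : ℝ) ^ 2 ≤ M ^ 2 := hk
  exact ⟨key k.1 k.2 hk', key k.2 k.1 (by linarith)⟩

theorem fsb_thm : FSBStmt := by
  refine ⟨fsb_fin, ?_, ?_, ?_, ?_, ?_, ?_⟩
  · intro M σ u hu j
    unfold MemS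
    refine summable_of_ne_finset_zero (s := (fsb_fin M).toFinset) ?_
    intro k hk
    have h1 : M ^ 2 < sq k := by
      by_contra h
      exact hk ((Set.Finite.mem_toFinset _).2 (not_lt.1 h))
    rw [hu j k h1]
    simp
  · intro M u v hu hv
    constructor
    · intro j k hk
      simp [hu j k hk, hv j k hk]
    · intro j k hk
      simp [hu j k hk, hv j k hk]
  · intro M M' g h hM hM' hg hh
    have key : ∀ (j : Fin 2) (k l : Z2), (M + M') ^ 2 < sq k →
        (∀ i, g i l = 0) ∨ h j (k - l) = 0 := by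
      intro j k l hk
      by_cases h1 : sq l ≤ M ^ 2
      · right
        refine hh j _ ?_
        by_contra h2
        exact absurd (fsb_tri M M' hM hM' k l h1 (not_lt.1 h2)) (not_le.2 hk)
      · left
        exact fun i => hg i l (not_le.1 h1)
    constructor
    · intro j k hk
      unfold adv dot
      have : ∀ l, trm g (h j) k l = 0 := by
        intro l
        unfold trm
        rcases key j k l hk with h1 | h1
        · simp [h1]
        · simp [h1]
      simp [this]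
    · intro d j k hk
      unfold mul
      have : ∀ l : Z2, (∑ i : Fin 2, g i l * (Complex.I * (co i d : ℂ))) * h j (k - l) = 0 := by
        intro l
        rcases key j k l hk with h1 | h1
        · simp [h1]
        · simp [h1]
      rw [tsum_congr this, tsum_zero]
  · intro M M' u hM hMM hu j k hk
    refine hu j k (lt_of_le_of_lt ?_ hk)
    exact pow_le_pow_left₀ hM hMM 2
  · intro M ν p hM hp i j k hk
    unfold pro
    split_ifs with h1 h2
    · exfalso
      rw [h2] at hk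
      have : sq (0 : Z2) = 0 := by simp [sq]
      rw [this] at hk
      nlinarith [sq_nonneg M]
    · rfl
    · exact hp j k hk
  · intro M c u hM hu j k hk
    unfold sh
    refine hu j _ ?_
    by_contra h2
    have h0 : 0 ≤ sq c := by unfold sq; positivity
    refine absurd (fsb_tri (√(sq c)) M (Real.sqrt_nonneg _) hM k c ?_ (not_lt.1 h2)) (not_le.2 hk)
    rw [Real.sq_sqrt h0]

end HB
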