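import Pool.Agent.H61.HB.Stmts5
import Pool.Agent.H80.HB.GRC

set_option autoImplicit false

namespace HB

open TWA (sq_nonneg' one_le_sq)

private theorem gc3_hn (hM : MMBStmt) (hC : CONStmt) {T : ℝ} {G : ℝ → V} (hG : Cts 2 T G) :
    ContinuousOn (fun t => hn (G t)) (Set.Icc 0 T) := by
  classical
  have h := GRC.gen hM hC hG (fun k => if k = 0 then 0 else (sq k * √(sq k))⁻¹)
    (fun k => by
      have h2 := sq_nonneg' k
      split_ifs
      · exact le_rfl
      · positivity)
    (fun k => by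
      have h2 := sq_nonneg' k
      split_ifs with hk
      · positivity
      · have h3 := one_le_sq hk
        have h5 : 1 ≤ √(sq k) := Real.one_le_sqrt.2 h3
        have h4 : (sq k * √(sq k))⁻¹ ≤ 1 := inv_le_one_of_one_le₀ (by nlinarith)
        nlinarith)
  refine h.congr fun t _ => ?_
  show ∑ j, ∑' k, ‖off (G t j) k‖ ^ 2 / (sq k * √(sq k)) = _
  refine Finset.sum_congr rfl fun j _ => tsum_congr fun k => ?_
  unfold off
  by_cases hk : k = 0
  · rw [if_pos hk, if_pos hk, norm_zero]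
    simp
  · rw [if_neg hk, if_neg hk, div_eq_inv_mul]

private theorem gc3_hp (hM : MMBStmt) (hC : CONStmt) {T : ℝ} {G : ℝ → V} (hG : Cts 2 T G) :
    ContinuousOn (fun t => hp (G t)) (Set.Icc 0 T) :=
  GRC.gen hM hC hG (fun k => √(sq k)) (fun k => Real.sqrt_nonneg _) fun k => by
    have h2 := sq_nonneg' k
    have h3 : √(sq k) ≤ 1 + sq k := by
      rw [Real.sqrt_le_left (by positivity)]
      nlinarith
    nlinarith

theorem gc3_thm (hM : MMBStmt) (hC : CONStmt) : GC3Stmt := by
  intro ν s T u v hs hu hv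
  have hu2 := GRC.cts_two hM hs hu.cts
  have hv2 := GRC.cts_two hM hs hv.cts
  have hw2 := GRC.cts_sub hM hu2 hv2
  exact ⟨GRC.flu_cont hM hC hu2, gc3_hp hM hC hu2, GRC.dsq_cont hM hC hu2, gc3_hn hM hC hw2,
    GRC.mu_cont hC hw2, gc3_hp hM hC hw2⟩

end HB
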